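import Mathlib

set_option autoImplicit false

namespace Pool.Agent.H.MP_e6b4b8_nt

open Finset Filter

theorem cls (q T a : ℕ) (hq : 0 < q) :
    (((range T).filter (fun t => t ≡ a [MOD q])).card : ℝ) ≤ T / q + 1 := by
  have : ((range T).filter (fun t => t ≡ a [MOD q])).card ≤ (range (T / q + 1)).card := by
    apply card_le_card_of_injOn (fun t => t / q)
    · intro t ht
      simp only [coe_filter, mem_range, Set.mem_setOf_eq, coe_range, Set.mem_Iio] at ht ⊢
      exact Nat.lt_succ_of_le (Nat.div_le_div_right ht.1.le)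
    · intro t ht s hs h
      simp only [coe_filter, mem_range, Set.mem_setOf_eq] at ht hs h
      have h2 : t % q = s % q := ht.2.trans hs.2.symm
      rw [← Nat.div_add_mod t q, ← Nat.div_add_mod s q, h, h2]
  rw [card_range] at this
  have h2 : ((T / q : ℕ) : ℝ) ≤ T / q := Nat.cast_div_le
  have h3 : (((range T).filter (fun t => t ≡ a [MOD q])).card : ℝ) ≤ (T / q : ℕ) + 1 := by
    exact_mod_cast this
  linarith

theorem roots (p c T : ℕ) (hp : p.Prime) (h13 : 13 ≤ p) :
    (((range T).filter (fun t => p * p ∣ (5 * t + c) ^ 2 + 1)).card : ℝ) ≤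
      2 * (T / (p * p : ℕ) + 1) := by
  have hq : 0 < p * p := by positivity
  have hpz : Prime (p : ℤ) := Nat.prime_iff_prime_int.1 hp
  have h5 : IsCoprime ((p : ℤ) * p) 5 := by
    have : Nat.Coprime (p * p) 5 := by
      apply Nat.Coprime.mul_left <;>
        exact (Nat.coprime_primes hp (by norm_num)).2 (by omega)
    exact_mod_cast Nat.isCoprime_iff_coprime.2 this
  have cong : ∀ s t : ℕ, (p : ℤ) * p ∣ 5 * ((t : ℤ) - s) → s ≡ t [MOD p * p] := by
    intro s t h
    rw [Nat.modEq_iff_dvd]; push_cast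
    exact h5.dvd_of_dvd_mul_left h
  have split : ∀ s t : ℕ, p * p ∣ (5 * s + c) ^ 2 + 1 → p * p ∣ (5 * t + c) ^ 2 + 1 →
      s ≡ t [MOD p * p] ∨ (p : ℤ) * p ∣ (5 * s + c) + (5 * t + c) := by
    intro s t hs ht
    have hs' : (p : ℤ) * p ∣ (5 * s + c) ^ 2 + 1 := by exact_mod_cast hs
    have ht' : (p : ℤ) * p ∣ (5 * t + c) ^ 2 + 1 := by exact_mod_cast ht
    have h : (p : ℤ) * p ∣ (5 * ((t : ℤ) - s)) * ((5 * s + c) + (5 * t + c)) := by
      exact (dvd_sub ht' hs').trans (dvd_of_eq (by ring))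
    by_cases h1 : (p : ℤ) ∣ 5 * ((t : ℤ) - s)
    · left
      apply cong
      have h2 : ¬ (p : ℤ) ∣ (5 * s + c) + (5 * t + c) := by
        intro h2
        have h3 : (p : ℤ) ∣ 2 * (5 * s + c) := by exact (dvd_sub h2 h1).trans (dvd_of_eq (by ring))
        rcases hpz.dvd_or_dvd h3 with h4 | h4
        · have := Int.le_of_dvd (by norm_num) h4; omega
        · have h6 : (p : ℤ) ∣ 1 := by
            have := dvd_sub (Dvd.dvd.trans (dvd_mul_left _ _) hs') (dvd_pow h4 two_ne_zero)
            simpa using this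
          exact hpz.not_dvd_one h6
      have := (hpz.irreducible.coprime_iff_not_dvd.2 h2)
      exact (IsCoprime.mul_left this this).dvd_of_dvd_mul_right h
    · right
      have := (hpz.irreducible.coprime_iff_not_dvd.2 h1)
      exact (IsCoprime.mul_left this this).dvd_of_dvd_mul_left h
  obtain ⟨a, b, hab⟩ : ∃ a b : ℕ, ∀ t, p * p ∣ (5 * t + c) ^ 2 + 1 →
      t ≡ a [MOD p * p] ∨ t ≡ b [MOD p * p] := by
    by_cases h0 : ∃ a, p * p ∣ (5 * a + c) ^ 2 + 1
    · obtain ⟨a, ha⟩ := h0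
      by_cases h1 : ∃ b : ℕ, (p : ℤ) * p ∣ (5 * b + c) + (5 * a + c)
      · obtain ⟨b, hb⟩ := h1
        refine ⟨a, b, fun t ht => (split t a ht ha).imp id fun h => cong _ _ ?_⟩
        exact (dvd_sub hb h).trans (dvd_of_eq (by ring))
      · exact ⟨a, a, fun t ht => (split t a ht ha).imp id fun h => absurd ⟨t, h⟩ h1⟩
    · exact ⟨0, 0, fun t ht => absurd ⟨t, ht⟩ h0⟩
  have h1 : ((range T).filter (fun t => p * p ∣ (5 * t + c) ^ 2 + 1)).card ≤
      ((range T).filter (fun t => t ≡ a [MOD p * p])).card +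
        ((range T).filter (fun t => t ≡ b [MOD p * p])).card := by
    refine le_trans (card_le_card ?_) (card_union_le _ _)
    intro t ht
    simp only [mem_filter, mem_union] at ht ⊢
    exact (hab t ht.2).imp (fun h => ⟨ht.1, h⟩) (fun h => ⟨ht.1, h⟩)
  have h2 := cls (p * p) T a hq
  have h3 := cls (p * p) T b hq
  have h4 := (Nat.cast_le (α := ℝ)).2 h1
  push_cast at h2 h3 h4 ⊢
  linarith

theorem big_prime {t c : ℕ} (hc : c ≤ 1) (h : ¬ Squarefree ((5 * t + c) ^ 2 + 1)) :
    ∃ p, p.Prime ∧ 13 ≤ p ∧ p ≤ 5 * t + 1 ∧ p * p ∣ (5 * t + c) ^ 2 + 1 := by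
  rw [Nat.squarefree_iff_prime_squarefree] at h
  push Not at h
  obtain ⟨p, hp, hd⟩ := h
  refine ⟨p, hp, ?_, ?_, hd⟩
  · by_contra hlt
    push Not at hlt
    have key : ∀ q : ℕ, q * q ∣ (5 * t + c) ^ 2 + 1 → (((5 * t + c : ℕ) : ZMod q)) ^ 2 + 1 = 0 := by
      intro q hq
      have := (ZMod.natCast_eq_zero_iff _ q).2 (Dvd.dvd.trans (dvd_mul_left q q) hq)
      simpa using this
    have hp' : p = 2 ∨ p = 3 ∨ p = 5 ∨ p = 7 ∨ p = 11 := by
      clear hd key
      revert hp
      interval_cases p <;> norm_num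
    rcases hp' with rfl | rfl | rfl | rfl | rfl
    · have := (ZMod.natCast_eq_zero_iff _ 4).2 hd
      rw [Nat.cast_add, Nat.cast_pow] at this
      generalize ((5 * t + c : ℕ) : ZMod 4) = x at this
      revert x; decide
    · have := key 3 hd
      generalize ((5 * t + c : ℕ) : ZMod 3) = x at this
      revert x; decide
    · have h5 := Dvd.dvd.trans (dvd_mul_left 5 5) hd
      have e : (5 * t + c) ^ 2 + 1 = 5 * (5 * t ^ 2 + 2 * t * c) + (c ^ 2 + 1) := by ring
      rw [e] at h5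
      have := (Nat.dvd_add_right (dvd_mul_right _ _)).1 h5
      interval_cases c <;> simp at this
    · have := key 7 hd
      generalize ((5 * t + c : ℕ) : ZMod 7) = x at this
      revert x; decide
    · have := key 11 hd
      generalize ((5 * t + c : ℕ) : ZMod 11) = x at this
      revert x; decide
  · have h1 := Nat.le_of_dvd (by positivity) hd
    have h2 := hp.two_le
    by_contra hlt
    push Not at hlt
    have : (5 * t + c + 1) * (5 * t + c + 1) ≤ p * p := Nat.mul_le_mul (by omega) (by omega)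
    have : 2 * 2 ≤ p * p := Nat.mul_le_mul h2 h2
    rcases Nat.eq_zero_or_pos (5 * t + c) with h0 | h0
    · rw [h0] at h1; omega
    · nlinarith

theorem tail (K : ℕ) : ∑ m ∈ Icc 13 (K + 12), (1 : ℝ) / (m * m : ℕ) ≤ 1 / 12 - 1 / (K + 12) := by
  induction K with
  | zero => simp
  | succ K ih =>
    rw [show K + 1 + 12 = K + 12 + 1 by ring, sum_Icc_succ_top (by omega)]
    have : (1 : ℝ) / ((K + 12 + 1) * (K + 12 + 1) : ℕ) ≤ 1 / (K + 12) - 1 / ((K + 1 : ℕ) + 12) := by
      push_cast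
      rw [div_sub_div _ _ (by positivity) (by positivity), div_le_div_iff₀ (by positivity)
        (by positivity)]
      nlinarith [Nat.cast_nonneg (α := ℝ) K]
    linarith

theorem good (M : ℕ) : ∃ t, M ≤ t ∧ Squarefree ((5 * t + 0) ^ 2 + 1) ∧
    Squarefree ((5 * t + 1) ^ 2 + 1) := by
  have hx : Tendsto (fun T : ℕ => ((5 * T + 1 : ℕ) : ℝ)) atTop atTop :=
    tendsto_natCast_atTop_atTop.comp (tendsto_atTop_mono (fun T => by simp only [id]; omega)
      tendsto_id)
  obtain ⟨T, h1, h2, h3, h4⟩ := ((hx.eventually (Chebyshev.eventually_primeCounting_le one_pos)).and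
    (((Real.tendsto_log_atTop.comp hx).eventually_ge_atTop 216).and
      ((eventually_gt_atTop (3 * M)).and (eventually_ge_atTop 1)))).exists
  simp only [Nat.floor_natCast, Function.comp] at h1 h2
  have hT : (1 : ℝ) ≤ T := by exact_mod_cast h4
  have hpi : (Nat.primeCounting (5 * T + 1) : ℝ) ≤ T / 12 := by
    refine h1.trans ?_
    have a1 : Real.log 4 ≤ 2 := by
      rw [show (4 : ℝ) = 2 ^ 2 by norm_num, Real.log_pow]
      have := Real.log_two_lt_d9
      push_cast; linarith
    rw [div_le_iff₀ (by linarith)]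
    have a2 := mul_le_mul_of_nonneg_left h2 (by positivity : (0 : ℝ) ≤ T / 12)
    have a3 : (Real.log 4 + 1) * ((5 * T + 1 : ℕ) : ℝ) ≤ 3 * (6 * T) :=
      mul_le_mul (by linarith) (by push_cast; linarith) (by positivity) (by norm_num)
    linarith
  by_contra hn
  push Not at hn
  set P := (Icc 13 (5 * T + 1)).filter Nat.Prime with hP
  have hsub : range T ⊆ range M ∪ P.biUnion (fun p =>
      (range T).filter (fun t => p * p ∣ (5 * t + 0) ^ 2 + 1) ∪
        (range T).filter (fun t => p * p ∣ (5 * t + 1) ^ 2 + 1)) := by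
    intro t ht
    rw [mem_union]
    by_cases hM : t < M
    · exact Or.inl (mem_range.2 hM)
    right
    have ht' := mem_range.1 ht
    by_cases hs : Squarefree ((5 * t + 0) ^ 2 + 1)
    · obtain ⟨p, a1, a2, a3, a4⟩ := big_prime le_rfl (hn t (by omega) hs)
      exact mem_biUnion.2 ⟨p, mem_filter.2 ⟨mem_Icc.2 ⟨a2, by omega⟩, a1⟩,
        mem_union_right _ (mem_filter.2 ⟨ht, a4⟩)⟩
    · obtain ⟨p, a1, a2, a3, a4⟩ := big_prime zero_le_one hs
      exact mem_biUnion.2 ⟨p, mem_filter.2 ⟨mem_Icc.2 ⟨a2, by omega⟩, a1⟩,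
        mem_union_left _ (mem_filter.2 ⟨ht, a4⟩)⟩
  have c1 := (card_le_card hsub).trans ((card_union_le _ _).trans
    (Nat.add_le_add_left card_biUnion_le _))
  rw [card_range, card_range] at c1
  have c2 := (Nat.cast_le (α := ℝ)).2 c1
  rw [Nat.cast_add, Nat.cast_sum] at c2
  have c3 : ∀ p ∈ P, (((range T).filter (fun t => p * p ∣ (5 * t + 0) ^ 2 + 1) ∪
        (range T).filter (fun t => p * p ∣ (5 * t + 1) ^ 2 + 1)).card : ℝ) ≤
        4 * T * (1 / (p * p : ℕ)) + 4 := by
    intro p hp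
    obtain ⟨a1, a2⟩ := mem_filter.1 hp
    have b1 := roots p 0 T a2 (mem_Icc.1 a1).1
    have b2 := roots p 1 T a2 (mem_Icc.1 a1).1
    have b3 := (Nat.cast_le (α := ℝ)).2 (card_union_le
      ((range T).filter (fun t => p * p ∣ (5 * t + 0) ^ 2 + 1))
      ((range T).filter (fun t => p * p ∣ (5 * t + 1) ^ 2 + 1)))
    rw [Nat.cast_add] at b3
    have e : (T : ℝ) / (p * p : ℕ) = T * (1 / (p * p : ℕ)) := by ring
    linarith
  have c4 := sum_le_sum c3
  rw [sum_add_distrib, ← mul_sum, sum_const, nsmul_eq_mul] at c4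
  have c5 : ∑ p ∈ P, (1 : ℝ) / (p * p : ℕ) ≤ 1 / 12 := by
    have a1 := tail (5 * T)
    have a2 := sum_le_sum_of_subset_of_nonneg (f := fun m : ℕ => (1 : ℝ) / (m * m : ℕ))
      ((filter_subset _ _).trans (Icc_subset_Icc_right (by omega)) :
        P ⊆ Icc 13 (5 * T + 12)) (fun _ _ _ => by positivity)
    have a3 : (0 : ℝ) ≤ 1 / (((5 * T : ℕ) : ℝ) + 12) := by positivity
    linarith
  have c6 : P.card ≤ Nat.primeCounting (5 * T + 1) := by
    rw [Nat.primeCounting, Nat.primeCounting', Nat.count_eq_card_filter_range]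
    apply card_le_card
    apply filter_subset_filter
    intro x hx
    have := mem_Icc.1 hx
    exact mem_range.2 (by omega)
  have c7 := (Nat.cast_le (α := ℝ)).2 c6
  have c8 := mul_le_mul_of_nonneg_left c5 (by positivity : (0 : ℝ) ≤ 4 * T)
  have c9 : (3 * M : ℝ) < T := by exact_mod_cast h3
  linarith

end Pool.Agent.H.MP_e6b4b8_nt
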